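import Mathlib
import Pool.Agent.W745.Fib.Stm

/-!
Project FM, part K: the band edges of level `k + m` in a band of level `k`.
-/

set_option autoImplicit false

open Polynomial Set
open scoped ENNReal NNReal

namespace Pool.Agent.W7.FM

open Pool.Agent.W811.Stu
open Pool.Agent.W745.Fib

/-- every energy in a band is joined to an edge with trace one -/
lemma joined (hDi : SDi) {lam : ℝ} (hl : lam ≠ 0) : ∃ D : ℝ, 1 ≤ D ∧ ∀ m : ℕ, 1 ≤ m →
    (∀ E E' : ℝ, (∀ e ∈ Set.uIcc E E', |tr lam m e| ≤ 1) → |dE lam m E| ≤ D * |dE lam m E'|) ∧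
    ∀ t : ℝ, |tr lam m t| ≤ 1 → ∃ gs : ℝ, tr lam m gs = 1 ∧
      (∀ e ∈ Set.uIcc gs t, |tr lam m e| ≤ 1) ∧ |dE lam m gs| ≤ D * |dE lam m t| := by
  have hcc : (1 : ℝ) < cc (lam / 2) := one_lt_cc (div_ne_zero hl two_ne_zero)
  obtain ⟨C, hC1, hC⟩ := hDi lam hl 1 one_pos hcc
  refine ⟨C, hC1, fun m hm => ⟨fun E E' h => ((hC m hm).1 E E' h).1, fun t ht => ?_⟩⟩
  obtain ⟨u, v, hut, htv, -, hin, hends⟩ := (hC m hm).2 t ht
  have key : ∀ gs, gs ∈ Set.Icc u v → tr lam m gs = 1 → ∃ gs : ℝ, tr lam m gs = 1 ∧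
      (∀ e ∈ Set.uIcc gs t, |tr lam m e| ≤ 1) ∧ |dE lam m gs| ≤ C * |dE lam m t| := by
    intro gs hgs h1
    have hsub : ∀ e ∈ Set.uIcc gs t, |tr lam m e| ≤ 1 := by
      intro e he
      exact hin e (Set.uIcc_subset_Icc hgs ⟨hut, htv⟩ he)
    exact ⟨gs, h1, hsub, ((hC m hm).1 gs t hsub).1⟩
  have huv : u ≤ v := hut.trans htv
  rcases hends with h | h
  · exact key v ⟨huv, le_refl v⟩ h.2
  · exact key u ⟨le_refl u, huv⟩ h.1

/-- a finite set of points joined to `gs` lies in an interval of the band -/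
lemma hull {f : ℝ → ℝ} {gs : ℝ} (T : Finset ℝ) (h : ∀ t ∈ T, ∀ e ∈ Set.uIcc gs t, |f e| ≤ 1)
    (h0 : |f gs| ≤ 1) :
    ∃ u' v' : ℝ, u' ≤ v' ∧ (∀ e ∈ Set.Icc u' v', |f e| ≤ 1) ∧ ∀ t ∈ T, t ∈ Set.Icc u' v' := by
  classical
  set T' := insert gs T with hT'
  have hne : T'.Nonempty := Finset.insert_nonempty _ _
  have hall : ∀ t ∈ T', ∀ e ∈ Set.uIcc gs t, |f e| ≤ 1 := by
    intro t ht e he
    rcases Finset.mem_insert.1 ht with rfl | ht
    · rw [Set.uIcc_self] at he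
      rw [Set.mem_singleton_iff.1 he]; exact h0
    · exact h t ht e he
  have hg : gs ∈ T' := Finset.mem_insert_self _ _
  refine ⟨T'.min' hne, T'.max' hne, Finset.min'_le_max' _ hne, ?_, ?_⟩
  · intro e he
    rcases le_total e gs with h1 | h1
    · refine hall _ (T'.min'_mem hne) e ?_
      rw [Set.mem_uIcc]; right; exact ⟨he.1, h1⟩
    · refine hall _ (T'.max'_mem hne) e ?_
      rw [Set.mem_uIcc]; left; exact ⟨h1, he.2⟩
  · intro t ht
    have ht' : t ∈ T' := Finset.mem_insert_of_mem ht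
    exact ⟨T'.min'_le t ht', T'.le_max' t ht'⟩

/-- real power estimate -/
lemma rpow_est {a x y z s : ℝ} (ha : 0 < a) (hx : 0 < x) (hy : 0 < y) (hs : 0 ≤ s)
    (h : a * x * y ≤ z) : z ^ (-s) ≤ a ^ (-s) * (x ^ (-s) * y ^ (-s)) := by
  have h1 : 0 < a * x * y := by positivity
  have h2 := Real.rpow_le_rpow_of_nonpos h1 h (neg_nonpos.2 hs)
  rw [Real.mul_rpow (by positivity) hy.le, Real.mul_rpow ha.le hx.le, mul_assoc] at h2
  exact h2

theorem main (hK1 : SK1) (hK2 : SK2) (hDu : SDu) (hDi : SDi) (hZ : SZ) : SK := by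
  classical
  intro lam hl s hs
  have hl' : -lam ≠ 0 := neg_ne_zero.2 hl
  obtain ⟨c, hc, hK1⟩ := hK1 lam hl
  obtain ⟨m0, hK2⟩ := hK2 lam hl
  obtain ⟨D1, hD1, hJ1⟩ := joined hDi hl
  obtain ⟨D2, hD2, hJ2⟩ := joined hDi hl'
  have hcc : (1 : ℝ) < cc (lam / 2) := one_lt_cc (div_ne_zero hl two_ne_zero)
  have hcc' : (1 : ℝ) < cc (-lam / 2) := one_lt_cc (div_ne_zero hl' two_ne_zero)
  set D := max D1 D2 with hD
  have hD0 : 1 ≤ D := le_trans hD1 (le_max_left _ _)
  have hDpos : 0 < D := lt_of_lt_of_le one_pos hD0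
  set a := c / (D * D) with ha
  have hapos : 0 < a := by positivity
  refine ⟨(a ^ (-s)).toNNReal * (m0 : ℝ≥0), ?_⟩
  intro k m hk hm u v huv hband
  have hk1 : 1 ≤ k := by omega
  have hm1 : 1 ≤ m := by omega
  have hn1 : 1 ≤ k + m := by omega
  have hdu : 0 < |dE lam k u| := by
    refine abs_pos.2 ((hZ lam hl k hk1).1 u ?_)
    exact lt_of_le_of_lt (hband u ⟨le_refl u, huv⟩) hcc
  -- the point joined to the dual energy
  have hpt : ∀ g : {E : ℝ // E ∈ Set.Icc u v ∧ tr lam (k + m) E = 1},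
      ∃ b : {E : ℝ // tr lam m E = 1} ⊕ {E : ℝ // tr (-lam) m E = 1},
        |dE lam (k + m) g| ^ (-s) ≤ a ^ (-s) * (|dE lam k u| ^ (-s) *
          (Sum.elim (fun x : {E : ℝ // tr lam m E = 1} => |dE lam m x| ^ (-s))
            (fun x : {E : ℝ // tr (-lam) m E = 1} => |dE (-lam) m x| ^ (-s)) b)) ∧
        (∀ x, b = Sum.inl x → dl lam (k + m) g = lam ∧
          ∀ e ∈ Set.uIcc (x : ℝ) (dt lam (k + m) g), |tr lam m e| ≤ 1) ∧
        (∀ x, b = Sum.inr x → dl lam (k + m) g = -lam ∧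
          ∀ e ∈ Set.uIcc (x : ℝ) (dt lam (k + m) g), |tr (-lam) m e| ≤ 1) := by
    rintro ⟨g, hg, hg1⟩
    have hgk : |tr lam k g| ≤ 1 := hband g hg
    have hprod := hK1 k m hk hm g hg1 hgk
    obtain ⟨hdl, hdual, -⟩ := hDu lam g (k + m) hn1 hg1
    have htm : |tr (dl lam (k + m) g) m (dt lam (k + m) g)| ≤ 1 := by
      rw [hdual m (by omega), Nat.add_sub_cancel]; exact hgk
    have hdist : |dE lam k u| ≤ D * |dE lam k g| := by
      have h1 := (hJ1 k hk1).1 u g (fun e he =>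
        hband e (Set.uIcc_subset_Icc ⟨le_refl u, huv⟩ hg he))
      exact h1.trans (mul_le_mul_of_nonneg_right (le_max_left _ _) (abs_nonneg _))
    have est : ∀ y : ℝ, 0 < y →
        y ≤ D * |dE (dl lam (k + m) g) m (dt lam (k + m) g)| →
        |dE lam (k + m) g| ^ (-s) ≤ a ^ (-s) * (|dE lam k u| ^ (-s) * y ^ (-s)) := by
      intro y hy hyD
      refine rpow_est hapos hdu hy hs ?_
      refine le_trans ?_ hprod
      have h2 : |dE lam k u| * y ≤
          (D * |dE lam k g|) * (D * |dE (dl lam (k + m) g) m (dt lam (k + m) g)|) :=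
        mul_le_mul hdist hyD hy.le (by positivity)
      calc a * |dE lam k u| * y = a * (|dE lam k u| * y) := by ring
        _ ≤ a * ((D * |dE lam k g|) * (D * |dE (dl lam (k + m) g) m (dt lam (k + m) g)|)) :=
            mul_le_mul_of_nonneg_left h2 hapos.le
        _ = c * |dE lam k g| * |dE (dl lam (k + m) g) m (dt lam (k + m) g)| := by
            rw [ha]; field_simp
    rcases hdl with hdl | hdl
    · rw [hdl] at htm est
      obtain ⟨gs, hgs, hjoin, hder⟩ := (hJ1 m hm1).2 _ htm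
      have hpos : 0 < |dE lam m gs| := by
        refine abs_pos.2 ((hZ lam hl m hm1).1 gs ?_)
        rw [hgs, abs_one]; exact hcc
      refine ⟨Sum.inl ⟨gs, hgs⟩, ?_, ?_, ?_⟩
      · exact est _ hpos (hder.trans (mul_le_mul_of_nonneg_right (le_max_left _ _) (abs_nonneg _)))
      · intro x hx
        have : x = ⟨gs, hgs⟩ := (Sum.inl.inj hx).symm
        subst this
        exact ⟨hdl, hjoin⟩
      · intro x hx; exact absurd hx (by simp)
    · rw [hdl] at htm est
      obtain ⟨gs, hgs, hjoin, hder⟩ := (hJ2 m hm1).2 _ htm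
      have hpos : 0 < |dE (-lam) m gs| := by
        refine abs_pos.2 ((hZ (-lam) hl' m hm1).1 gs ?_)
        rw [hgs, abs_one]; exact hcc'
      refine ⟨Sum.inr ⟨gs, hgs⟩, ?_, ?_, ?_⟩
      · exact est _ hpos (hder.trans (mul_le_mul_of_nonneg_right (le_max_right _ _) (abs_nonneg _)))
      · intro x hx; exact absurd hx (by simp)
      · intro x hx
        have : x = ⟨gs, hgs⟩ := (Sum.inr.inj hx).symm
        subst this
        exact ⟨hdl, hjoin⟩
  choose Φ hΦ using hpt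
  -- finiteness
  have fA : Finite {E : ℝ // E ∈ Set.Icc u v ∧ tr lam (k + m) E = 1} := by
    have h1 := ((hZ lam hl (k + m) hn1).2.1 1 (by rw [abs_one]; exact hcc)).1
    exact (h1.subset (fun x hx => hx.2)).to_subtype
  have fB1 : Finite {E : ℝ // tr lam m E = 1} :=
    ((hZ lam hl m hm1).2.1 1 (by rw [abs_one]; exact hcc)).1.to_subtype
  have fB2 : Finite {E : ℝ // tr (-lam) m E = 1} :=
    ((hZ (-lam) hl' m hm1).2.1 1 (by rw [abs_one]; exact hcc')).1.to_subtype
  have := Fintype.ofFinite {E : ℝ // E ∈ Set.Icc u v ∧ tr lam (k + m) E = 1}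
  have := Fintype.ofFinite {E : ℝ // tr lam m E = 1}
  have := Fintype.ofFinite {E : ℝ // tr (-lam) m E = 1}
  set F : {E : ℝ // tr lam m E = 1} ⊕ {E : ℝ // tr (-lam) m E = 1} → ℝ :=
    Sum.elim (fun x : {E : ℝ // tr lam m E = 1} => |dE lam m x| ^ (-s))
            (fun x : {E : ℝ // tr (-lam) m E = 1} => |dE (-lam) m x| ^ (-s)) with hF
  -- fibres
  have hfib : ∀ b, (Finset.univ.filter (fun g => Φ g = b)).card ≤ m0 := by
    intro b
    have hcore : ∀ (lam' gs : ℝ), (lam' = lam ∨ lam' = -lam) → tr lam' m gs = 1 →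
        (∀ g, Φ g = b → dl lam (k + m) g = lam' ∧
          ∀ e ∈ Set.uIcc gs (dt lam (k + m) g), |tr lam' m e| ≤ 1) →
        (Finset.univ.filter (fun g => Φ g = b)).card ≤ m0 := by
      intro lam' gs hlam' hgs h
      obtain ⟨u', v', huv', hin, hT⟩ := hull (f := tr lam' m) (gs := gs)
        ((Finset.univ.filter (fun g => Φ g = b)).image
          (fun g : {E : ℝ // E ∈ Set.Icc u v ∧ tr lam (k + m) E = 1} => dt lam (k + m) g))
        (by
          intro t ht
          obtain ⟨g, hg, rfl⟩ := Finset.mem_image.1 ht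
          exact (h g (Finset.mem_filter.1 hg).2).2) (by rw [hgs, abs_one])
      have h2 := hK2 k m hk hm u v u' v' lam' huv huv' hlam' hband hin
      refine le_trans ?_ h2
      have hfin : {g : ℝ | g ∈ Set.Icc u v ∧ tr lam (k + m) g = 1 ∧ dl lam (k + m) g = lam' ∧
          dt lam (k + m) g ∈ Set.Icc u' v'}.Finite := by
        have h1 := ((hZ lam hl (k + m) hn1).2.1 1 (by rw [abs_one]; exact hcc)).1
        exact h1.subset (fun x hx => hx.2.1)
      have hcard : (Finset.univ.filter (fun g => Φ g = b)).card =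
          (((Finset.univ.filter (fun g => Φ g = b)).image
            (fun g : {E : ℝ // E ∈ Set.Icc u v ∧ tr lam (k + m) E = 1} => (g : ℝ))) :
              Set ℝ).ncard := by
        rw [Set.ncard_coe_finset, Finset.card_image_of_injective _ Subtype.val_injective]
      rw [hcard]
      refine Set.ncard_le_ncard ?_ hfin
      intro x hx
      obtain ⟨g, hg, rfl⟩ := Finset.mem_image.1 (Finset.mem_coe.1 hx)
      have hgb := (Finset.mem_filter.1 hg).2
      exact ⟨g.2.1, g.2.2, (h g hgb).1, hT _ (Finset.mem_image_of_mem _ hg)⟩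
    rcases b with x | x
    · exact hcore lam x (Or.inl rfl) x.2 (fun g hg => (hΦ g).2.1 x hg)
    · exact hcore (-lam) x (Or.inr rfl) x.2 (fun g hg => (hΦ g).2.2 x hg)
  have hapow : 0 ≤ a ^ (-s) := (Real.rpow_pos_of_pos hapos _).le
  have hupow : 0 ≤ |dE lam k u| ^ (-s) := (Real.rpow_pos_of_pos hdu _).le
  rw [tsum_fintype]
  have hstep : ∀ g : {E : ℝ // E ∈ Set.Icc u v ∧ tr lam (k + m) E = 1},
      ENNReal.ofReal (|dE lam (k + m) g| ^ (-s)) ≤
        ENNReal.ofReal (a ^ (-s)) * ENNReal.ofReal (|dE lam k u| ^ (-s)) *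
          ENNReal.ofReal (F (Φ g)) := by
    intro g
    refine (ENNReal.ofReal_le_ofReal (hΦ g).1).trans ?_
    rw [ENNReal.ofReal_mul hapow, ENNReal.ofReal_mul hupow, mul_assoc]
  have hQ : Q s m lam + Q s m (-lam) = ∑ b, ENNReal.ofReal (F b) := by
    rw [Fintype.sum_sum_type, Q, Q, tsum_fintype, tsum_fintype]
    simp only [hF, Sum.elim_inl, Sum.elim_inr]
  calc ∑ g : {E : ℝ // E ∈ Set.Icc u v ∧ tr lam (k + m) E = 1},
        ENNReal.ofReal (|dE lam (k + m) g| ^ (-s))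
      ≤ ∑ g : {E : ℝ // E ∈ Set.Icc u v ∧ tr lam (k + m) E = 1},
        ENNReal.ofReal (a ^ (-s)) * ENNReal.ofReal (|dE lam k u| ^ (-s)) *
          ENNReal.ofReal (F (Φ g)) := Finset.sum_le_sum (fun g _ => hstep g)
    _ = ENNReal.ofReal (a ^ (-s)) * ENNReal.ofReal (|dE lam k u| ^ (-s)) *
          ∑ g : {E : ℝ // E ∈ Set.Icc u v ∧ tr lam (k + m) E = 1},
            ENNReal.ofReal (F (Φ g)) := by rw [Finset.mul_sum]
    _ ≤ ENNReal.ofReal (a ^ (-s)) * ENNReal.ofReal (|dE lam k u| ^ (-s)) *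
          ((m0 : ℝ≥0∞) * (Q s m lam + Q s m (-lam))) := by
        refine mul_le_mul_right ?_ _
        rw [hQ]
        rw [← Finset.sum_fiberwise (s := Finset.univ) (g := Φ) (f := fun g => ENNReal.ofReal (F (Φ g)))]
        rw [Finset.mul_sum]
        refine Finset.sum_le_sum (fun b _ => ?_)
        have h1 : ∑ g ∈ Finset.univ.filter (fun g => Φ g = b), ENNReal.ofReal (F (Φ g)) =
            ∑ g ∈ Finset.univ.filter (fun g => Φ g = b), ENNReal.ofReal (F b) := by
          refine Finset.sum_congr rfl (fun g hg => ?_)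
          rw [(Finset.mem_filter.1 hg).2]
        rw [h1, Finset.sum_const, nsmul_eq_mul]
        refine mul_le_mul_left ?_ _
        exact_mod_cast hfib b
    _ = (((a ^ (-s)).toNNReal * (m0 : ℝ≥0) : ℝ≥0) : ℝ≥0∞) *
          ENNReal.ofReal (|dE lam k u| ^ (-s)) * (Q s m lam + Q s m (-lam)) := by
        rw [ENNReal.coe_mul]
        have : ENNReal.ofReal (a ^ (-s)) = ((a ^ (-s)).toNNReal : ℝ≥0∞) := rfl
        rw [this]
        have h3 : (((m0 : ℝ≥0) : ℝ≥0) : ℝ≥0∞) = (m0 : ℝ≥0∞) := by simp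
        rw [h3]
        ring

end Pool.Agent.W7.FM
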